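import Pool.Agent.Helper419.LFMain

set_option autoImplicit false

namespace Pool.Agent.Results.MP_d1d9c5_gt.BoundedDegreeExample

/-- `f` is a `C`-rough isometry from `X` (with distance function `dX`) to `Y` (with distance
function `dY`), where `0 < C < ∞`. -/
structure IsRoughIsometry {X Y : Type*} (dX : X → X → ℝ) (dY : Y → Y → ℝ) (C : ℝ) (f : X → Y) :
    Prop where
  pos : 0 < C
  lower : ∀ x y, C⁻¹ * dY (f x) (f y) - C ≤ dX x y
  upper : ∀ x y, dX x y ≤ C * dY (f x) (f y) + C
  net : ∀ y, ∃ x, dY (f x) y < C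

/-- the path-length metric of a graph -/
noncomputable def graphDist {V : Type*} (G : SimpleGraph V) (x y : V) : ℝ := (G.dist x y : ℝ)

/-- A graph is `C`-roughly transitive if for all vertices `x`, `y` some `C`-rough isometry of the
graph metric maps `x` to `y`. -/
def RoughlyTransitive {V : Type*} (G : SimpleGraph V) (C : ℝ) : Prop :=
  ∀ x y : V, ∃ f : V → V, IsRoughIsometry (graphDist G) (graphDist G) C f ∧ f x = y

/-- A metric space is homogeneous if its isometry group acts transitively. -/
def Homogeneous (Y : Type*) [MetricSpace Y] : Prop := ∀ y y' : Y, ∃ g : Y ≃ᵢ Y, g y = y'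

/-- There are an infinite connected graph `G` of bounded degree (at most 11) and a finite constant
`C` such that `G` is `C`-roughly transitive, but `G` is not roughly isometric to any homogeneous
metric space. -/
theorem result : ∃ (V : Type) (G : SimpleGraph V) (C : ℝ), Infinite V ∧ G.Connected ∧
    (∀ v, (G.neighborSet v).encard ≤ 11) ∧ 0 < C ∧ RoughlyTransitive G C ∧
    ∀ (Y : Type*) [MetricSpace Y], Homogeneous Y →
      ¬ ∃ (K : ℝ) (f : V → Y), IsRoughIsometry (graphDist G) dist K f := by
  refine ⟨Pool.Agent.Helper419.LF.V0, Pool.Agent.Helper419.LF.G0, 6,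
    Pool.Agent.Helper419.LF.V0_infinite, Pool.Agent.Helper419.LF.G0_connected,
    Pool.Agent.Helper419.LF.G0_degree, by norm_num, ?_, ?_⟩
  · intro x y
    obtain ⟨f, h1, h2, h3, h4⟩ := Pool.Agent.Helper419.LF.roughly_transitive x y
    exact ⟨f, ⟨by norm_num, h1, h2, h3⟩, h4⟩
  · rintro Y _ hY ⟨K, f, hf⟩
    exact Pool.Agent.Helper419.LF.not_homogeneous Y hY K hf.pos f hf.lower hf.upper hf.net

end Pool.Agent.Results.MP_d1d9c5_gt.BoundedDegreeExample
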